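import Mathlib
import Pool.Agent.S03779

set_option autoImplicit false
open MeasureTheory Filter
open scoped ENNReal Topology

namespace Pool.Agent.Results.MP_0b2319_an.BoundedComplex

universe u

/-- The averages `A_N`. -/
noncomputable def A {X : Type u} (T : X → X) {k : ℕ} (c : Fin k → ℝ) (f : Fin k → X → ℂ)
    (N : ℕ) (x : X) : ℂ :=
  (1 / (N : ℂ)) * ∑ n ∈ Finset.Icc 1 N, ∏ i : Fin k, f i (T^[⌊(n : ℝ) ^ c i⌋₊ ^ 2] x)

/-- real functions, arbitrary universe -/
theorem real_case (k : ℕ) (c : Fin k → ℝ) (hc : Function.Injective c)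
    (hci : ∀ i, 0 < c i ∧ ∀ m : ℤ, c i ≠ (m : ℝ))
    {X : Type u} [MeasurableSpace X] (μ : Measure X) [IsProbabilityMeasure μ] (T : X → X)
    (hT : MeasurePreserving T μ μ) (f : Fin k → X → ℝ) (hf : ∀ i, Measurable (f i))
    (hb : ∀ i, ∃ C : ℝ, ∀ x, |f i x| ≤ C) :
    ∃ g : X → ℝ, MemLp g 2 μ ∧ Tendsto (fun N : ℕ => eLpNorm
      (fun x => (1 / (N : ℝ)) * ∑ n ∈ Finset.Icc 1 N,
        ∏ i : Fin k, f i (T^[⌊(n : ℝ) ^ c i⌋₊ ^ 2] x) - g x) 2 μ) atTop (𝓝 0) := by
  choose C hC using hb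
  let Φ : X → (Fin k → ℕ → ℝ) := fun x i m => f i (T^[m] x)
  have hΦ : Measurable Φ := by
    refine measurable_pi_lambda _ fun i => measurable_pi_lambda _ fun m => ?_
    exact (hf i).comp (hT.measurable.iterate m)
  let S : (Fin k → ℕ → ℝ) → (Fin k → ℕ → ℝ) := fun y i m => y i (m + 1)
  have hS : Measurable S := by
    refine measurable_pi_lambda _ fun i => measurable_pi_lambda _ fun m => ?_
    exact (measurable_pi_apply (m + 1)).comp (measurable_pi_apply i)
  have hSΦ : S ∘ Φ = Φ ∘ T := by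
    funext x i m
    simp only [S, Φ, Function.comp, Function.iterate_succ_apply]
  let ν : Measure (Fin k → ℕ → ℝ) := μ.map Φ
  have hν : IsProbabilityMeasure ν := Measure.isProbabilityMeasure_map hΦ.aemeasurable
  have hΦp : MeasurePreserving Φ μ ν := ⟨hΦ, rfl⟩
  have hSp : MeasurePreserving S ν ν := by
    refine ⟨hS, ?_⟩
    simp only [ν]
    rw [Measure.map_map hS hΦ, hSΦ, ← Measure.map_map hΦ hT.measurable, hT.map_eq]
  let F : Fin k → (Fin k → ℕ → ℝ) → ℝ := fun i y => max (-C i) (min (C i) (y i 0))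
  have hF : ∀ i, Measurable (F i) := by
    intro i
    refine measurable_const.max (measurable_const.min ?_)
    exact (measurable_pi_apply 0).comp (measurable_pi_apply i)
  have hFb : ∀ i, ∃ C : ℝ, ∀ y, |F i y| ≤ C := by
    intro i
    refine ⟨|C i|, fun y => ?_⟩
    simp only [F]
    rw [abs_le]
    constructor
    · exact (neg_le_neg (le_abs_self (C i))).trans (le_max_left _ _)
    · refine max_le ?_ ((min_le_left _ _).trans (le_abs_self _))
      exact neg_le_abs _
  have hSit : ∀ (m : ℕ) (y : Fin k → ℕ → ℝ) (i : Fin k) (j : ℕ), S^[m] y i j = y i (j + m) := by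
    intro m
    induction m with
    | zero => intro y i j; rfl
    | succ m ih =>
      intro y i j
      rw [Function.iterate_succ_apply, ih]
      simp only [S]
      congr 1
  have hFΦ : ∀ (m : ℕ) (i : Fin k) (x : X), F i (S^[m] (Φ x)) = f i (T^[m] x) := by
    intro m i x
    simp only [F, hSit, zero_add, Φ]
    have h1 := abs_le.mp (hC i (T^[m] x))
    rw [min_eq_right h1.2, max_eq_right h1.1]
  obtain ⟨G, hG, hlim⟩ := Pool.Agent.S03779.result k c hc hci (Fin k → ℕ → ℝ) ν S hSp F hF hFb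
  refine ⟨G ∘ Φ, hG.comp_measurePreserving hΦp, ?_⟩
  refine hlim.congr fun N => ?_
  have hm : AEStronglyMeasurable (fun y => (1 / (N : ℝ)) * ∑ n ∈ Finset.Icc 1 N,
      ∏ i : Fin k, F i (S^[⌊(n : ℝ) ^ c i⌋₊ ^ 2] y) - G y) ν := by
    refine AEStronglyMeasurable.sub ?_ hG.1
    refine Measurable.aestronglyMeasurable ?_
    refine measurable_const.mul (Finset.measurable_fun_sum _ fun n _ => ?_)
    exact Finset.measurable_fun_prod _ fun i _ => (hF i).comp (hS.iterate _)
  rw [← eLpNorm_comp_measurePreserving hm hΦp]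
  congr 1
  funext x
  simp only [Function.comp, hFΦ]

/-- complex functions bounded everywhere -/
theorem bdd_case (k : ℕ) (c : Fin k → ℝ) (hc : Function.Injective c)
    (hci : ∀ i, 0 < c i ∧ ∀ m : ℤ, c i ≠ (m : ℝ))
    {X : Type u} [MeasurableSpace X] (μ : Measure X) [IsProbabilityMeasure μ] (T : X → X)
    (hT : MeasurePreserving T μ μ) (f : Fin k → X → ℂ) (hf : ∀ i, Measurable (f i))
    (hb : ∀ i, ∃ C : ℝ, ∀ x, ‖f i x‖ ≤ C) :
    ∃ g : X → ℂ, MemLp g 2 μ ∧ Tendsto (fun N : ℕ => eLpNorm (fun x => A T c f N x - g x) 2 μ)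
      atTop (𝓝 0) := by
  classical
  choose C hC using hb
  let h : Finset (Fin k) → Fin k → X → ℝ := fun t i x => if i ∈ t then (f i x).re else (f i x).im
  have hh : ∀ t i, Measurable (h t i) := by
    intro t i
    simp only [h]
    by_cases hi : i ∈ t
    · simp only [hi, if_true]; exact Complex.measurable_re.comp (hf i)
    · simp only [hi, if_false]; exact Complex.measurable_im.comp (hf i)
  have hhb : ∀ t i, ∃ C : ℝ, ∀ x, |h t i x| ≤ C := by
    intro t i
    refine ⟨C i, fun x => ?_⟩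
    simp only [h]
    by_cases hi : i ∈ t
    · simp only [hi, if_true]; exact (Complex.abs_re_le_norm _).trans (hC i x)
    · simp only [hi, if_false]; exact (Complex.abs_im_le_norm _).trans (hC i x)
  choose g hg hlim using fun t => real_case k c hc hci μ T hT (h t) (hh t) (hhb t)
  let z : Finset (Fin k) → ℂ := fun t => Complex.I ^ (Finset.univ \ t).card
  have hexp : ∀ (m : Fin k → ℕ) (x : X), ∏ i : Fin k, f i (T^[m i] x) =
      ∑ t ∈ (Finset.univ : Finset (Fin k)).powerset,
        z t * ((∏ i : Fin k, h t i (T^[m i] x) : ℝ) : ℂ) := by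
    intro m x
    have h1 : ∀ i : Fin k, f i (T^[m i] x) =
        (((f i (T^[m i] x)).re : ℝ) : ℂ) + Complex.I * (((f i (T^[m i] x)).im : ℝ) : ℂ) := by
      intro i
      rw [mul_comm Complex.I]
      exact (Complex.re_add_im _).symm
    rw [Finset.prod_congr rfl fun i _ => h1 i, Finset.prod_add]
    refine Finset.sum_congr rfl fun t _ => ?_
    rw [Finset.prod_mul_distrib, Finset.prod_const]
    have h2 : (∏ i : Fin k, h t i (T^[m i] x)) =
        (∏ i ∈ t, (f i (T^[m i] x)).re) * ∏ i ∈ Finset.univ \ t, (f i (T^[m i] x)).im := by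
      rw [← Finset.prod_sdiff (Finset.subset_univ t), mul_comm]
      congr 1
      · refine Finset.prod_congr rfl fun i hi => ?_
        simp only [h, hi, if_true]
      · refine Finset.prod_congr rfl fun i hi => ?_
        have : i ∉ t := (Finset.mem_sdiff.mp hi).2
        simp only [h, this, if_false]
    rw [h2]
    simp only [z]
    push_cast
    ring
  let G : X → ℂ := fun x => ∑ t ∈ (Finset.univ : Finset (Fin k)).powerset, z t * ((g t x : ℝ) : ℂ)
  have hz : ∀ t, ‖z t‖ = 1 := by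
    intro t
    simp [z]
  refine ⟨G, ?_, ?_⟩
  · refine memLp_finsetSum _ fun t _ => ?_
    exact ((hg t).ofReal).const_mul (z t)
  · have hkey : ∀ N : ℕ, ∀ x, A T c f N x - G x =
        ∑ t ∈ (Finset.univ : Finset (Fin k)).powerset, z t * (((1 / (N : ℝ)) *
          ∑ n ∈ Finset.Icc 1 N, ∏ i : Fin k, h t i (T^[⌊(n : ℝ) ^ c i⌋₊ ^ 2] x) - g t x : ℝ) :
            ℂ) := by
      intro N x
      simp only [A, G]
      have h3 : ∀ n : ℕ, ∏ i : Fin k, f i (T^[⌊(n : ℝ) ^ c i⌋₊ ^ 2] x) =
          ∑ t ∈ (Finset.univ : Finset (Fin k)).powerset,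
            z t * ((∏ i : Fin k, h t i (T^[⌊(n : ℝ) ^ c i⌋₊ ^ 2] x) : ℝ) : ℂ) :=
        fun n => hexp (fun i => ⌊(n : ℝ) ^ c i⌋₊ ^ 2) x
      rw [Finset.sum_congr rfl fun n _ => h3 n, Finset.sum_comm, Finset.mul_sum,
        ← Finset.sum_sub_distrib]
      refine Finset.sum_congr rfl fun t _ => ?_
      push_cast
      rw [← Finset.mul_sum]
      ring
    have hle : ∀ N : ℕ, eLpNorm (fun x => A T c f N x - G x) 2 μ ≤
        ∑ t ∈ (Finset.univ : Finset (Fin k)).powerset, eLpNorm (fun x => (1 / (N : ℝ)) *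
          ∑ n ∈ Finset.Icc 1 N, ∏ i : Fin k, h t i (T^[⌊(n : ℝ) ^ c i⌋₊ ^ 2] x) - g t x) 2 μ := by
      intro N
      have hmeas : ∀ t, AEStronglyMeasurable (fun x => (1 / (N : ℝ)) *
          ∑ n ∈ Finset.Icc 1 N, ∏ i : Fin k, h t i (T^[⌊(n : ℝ) ^ c i⌋₊ ^ 2] x) - g t x) μ := by
        intro t
        refine AEStronglyMeasurable.sub ?_ (hg t).1
        refine Measurable.aestronglyMeasurable ?_
        refine measurable_const.mul (Finset.measurable_fun_sum _ fun n _ => ?_)
        exact Finset.measurable_fun_prod _ fun i _ => (hh t i).comp (hT.measurable.iterate _)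
      have h4 : (fun x => A T c f N x - G x) =
          ∑ t ∈ (Finset.univ : Finset (Fin k)).powerset, fun x => z t * (((1 / (N : ℝ)) *
            ∑ n ∈ Finset.Icc 1 N, ∏ i : Fin k, h t i (T^[⌊(n : ℝ) ^ c i⌋₊ ^ 2] x) - g t x : ℝ) :
              ℂ) := by
        funext x
        rw [hkey N x, Finset.sum_apply]
      rw [h4]
      refine (eLpNorm_sum_le (fun t _ => ?_) (by norm_num)).trans
        (Finset.sum_le_sum fun t _ => ?_)
      · exact (Complex.continuous_ofReal.comp_aestronglyMeasurable (hmeas t)).const_mul (z t)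
      · refine eLpNorm_mono_ae (Eventually.of_forall fun x => ?_)
        rw [norm_mul, hz, one_mul, Complex.norm_real]
    have hsum : Tendsto (fun N : ℕ => ∑ t ∈ (Finset.univ : Finset (Fin k)).powerset,
        eLpNorm (fun x => (1 / (N : ℝ)) * ∑ n ∈ Finset.Icc 1 N,
          ∏ i : Fin k, h t i (T^[⌊(n : ℝ) ^ c i⌋₊ ^ 2] x) - g t x) 2 μ) atTop (𝓝 0) := by
      have := tendsto_finsetSum (Finset.univ : Finset (Fin k)).powerset fun t _ => hlim t
      simpa using this
    exact tendsto_of_tendsto_of_tendsto_of_le_of_le tendsto_const_nhds hsum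
      (fun _ => bot_le) hle

/-- For pairwise distinct positive non-integers `c_1, …, c_k`, every measure preserving map of a
probability space and all `f_1, …, f_k` in `L^∞(μ)` (complex valued), the averages `A_N` converge
in `L²(μ)`. -/
theorem result (k : ℕ) (c : Fin k → ℝ) (hc : ∀ i j, i ≠ j → c i ≠ c j)
    (hpos : ∀ i, 0 < c i) (hint : ∀ i, ∀ m : ℤ, c i ≠ (m : ℝ))
    {X : Type u} [MeasurableSpace X] (μ : Measure X) [IsProbabilityMeasure μ] (T : X → X)
    (hT : MeasurePreserving T μ μ) (f : Fin k → X → ℂ) (hf : ∀ i, MemLp (f i) ∞ μ) :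
    ∃ g : X → ℂ, MemLp g 2 μ ∧
      Tendsto (fun N : ℕ => eLpNorm (fun x => A T c f N x - g x) 2 μ) atTop (𝓝 0) := by
  have hinj : Function.Injective c := fun i j h => by
    by_contra hij
    exact hc i j hij h
  -- measurable everywhere bounded representatives
  have hrep : ∀ i, ∃ f' : X → ℂ, Measurable f' ∧ (∃ C : ℝ, ∀ x, ‖f' x‖ ≤ C) ∧
      f i =ᵐ[μ] f' := by
    intro i
    obtain ⟨hm, hfin⟩ := hf i
    set C : ℝ := (eLpNorm (f i) ∞ μ).toReal with hC
    have hmk : Measurable (hm.mk (f i)) := hm.stronglyMeasurable_mk.measurable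
    let s : Set X := {x | ‖hm.mk (f i) x‖ ≤ C}
    have hs : MeasurableSet s := measurableSet_le hmk.norm measurable_const
    refine ⟨s.indicator (hm.mk (f i)), hmk.indicator hs, ⟨max C 0, fun x => ?_⟩, ?_⟩
    · by_cases hx : x ∈ s
      · rw [Set.indicator_of_mem hx]
        exact le_trans hx (le_max_left _ _)
      · rw [Set.indicator_of_notMem hx, norm_zero]
        exact le_max_right _ _
    · have h1 : ∀ᵐ x ∂μ, ‖f i x‖ₑ ≤ eLpNorm (f i) ∞ μ := by
        rw [eLpNorm_exponent_top]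
        exact ae_le_eLpNormEssSup
      filter_upwards [h1, hm.ae_eq_mk] with x hx1 hx2
      have hxs : x ∈ s := by
        change ‖hm.mk (f i) x‖ ≤ C
        rw [← hx2, hC]
        have := ENNReal.toReal_mono hfin.ne hx1
        simpa using this
      rw [Set.indicator_of_mem hxs]
      exact hx2
  choose f' hf'm hf'b hf'e using hrep
  obtain ⟨g, hg, hlim⟩ := bdd_case k c hinj (fun i => ⟨hpos i, hint i⟩) μ T hT f' hf'm hf'b
  refine ⟨g, hg, hlim.congr fun N => ?_⟩
  refine eLpNorm_congr_ae ?_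
  have hall : ∀ᵐ x ∂μ, ∀ (i : Fin k) (m : ℕ), f i (T^[m] x) = f' i (T^[m] x) := by
    rw [ae_all_iff]
    intro i
    rw [ae_all_iff]
    intro m
    exact (hT.iterate m).quasiMeasurePreserving.ae_eq_comp (hf'e i)
  filter_upwards [hall] with x hx
  simp only [A]
  congr 2
  refine Finset.sum_congr rfl fun n _ => Finset.prod_congr rfl fun i _ => ?_
  rw [hx]

end Pool.Agent.Results.MP_0b2319_an.BoundedComplex
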